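import Pool.Agent.N110.CC.GStm

/-!
Project CC (helper110), leaf MOV: pull back of movable divisors.
-/

set_option autoImplicit false

open FF Pool.Agent.W602.GT Pool.Agent.Y172 Pool.Agent.R887
open Pool.Agent.N110 Pool.Agent.N110.PA Pool.Agent.N110.NV Pool.Agent.N492.PA
open Pool.Agent.N110.CC

namespace Pool.Agent.N608.CC

theorem leafMOV : S_MOV := by
  intro K _ _ N ρ y _ c φ hφ T hT D hfin
  have hprime : ∀ Q : Place ℂ K, IsPrimeDivisor y (comap φ Q) ↔ IsPrimeDivisor y Q :=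
    fun Q => hφ _ _ (fun _ => rfl)
  have hinv1 : ∀ P : Place ℂ K, comap φ (comap φ⁻¹ P) = P := fun P => by
    rw [← comap_mul, inv_mul_cancel, comap_one]
  have hinv2 : ∀ P : Place ℂ K, comap φ⁻¹ (comap φ P) = P := fun P => by
    rw [← comap_mul, mul_inv_cancel, comap_one]
  have hinj : Function.Injective (comap φ : Place ℂ K → Place ℂ K) := fun P Q h => by
    rw [← hinv2 P, h, hinv2]
  refine ⟨?_, ?_⟩
  · have hbij : Set.BijOn (comap φ) {P : Place ℂ K | IsPrimeDivisor y P}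
        {P : Place ℂ K | IsPrimeDivisor y P} := by
      refine ⟨fun P hP => (hprime P).2 hP, hinj.injOn, fun P hP => ?_⟩
      refine ⟨comap φ⁻¹ P, ?_, hinv1 P⟩
      show IsPrimeDivisor y (comap φ⁻¹ P)
      rw [← hprime, hinv1]
      exact hP
    unfold divClass
    rw [finsum_mem_eq_of_bijOn (comap φ) hbij
      (g := fun P => (D P : ℝ) • T (rcl c P))
      (fun Q hQ => by
        show (D (comap φ Q) : ℝ) • rcl c Q = (D (comap φ Q) : ℝ) • T (rcl c (comap φ Q))
        rw [hT (comap φ Q) Q ((hprime Q).2 hQ) (fun _ => rfl)])]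
    have h1 := AddMonoidHom.map_finsum_mem' (f := fun P : Place ℂ K => (D P : ℝ) • rcl c P)
      (s := {P : Place ℂ K | IsPrimeDivisor y P}) (T.toLinearMap.toAddMonoidHom) (by
        refine hfin.subset ?_
        rintro P ⟨hP, hP2⟩
        refine ⟨hP, fun h => hP2 ?_⟩
        simp [h])
    refine Eq.trans ?_ h1.symm
    refine finsum_mem_congr rfl fun P _ => ?_
    exact (map_smul T _ _).symm
  · rintro ⟨-, h2⟩
    refine ⟨?_, fun P hP => ?_⟩
    · refine (hfin.preimage (hinj.injOn)).subset ?_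
      rintro Q ⟨hQ, hQ2⟩
      exact ⟨(hprime Q).2 hQ, hQ2⟩
    · obtain ⟨f, hf, h3, h4⟩ := h2 (comap φ P) ((hprime P).2 hP)
      refine ⟨φ f, fun h => hf ((map_eq_zero φ).1 h), fun Q hQ => ?_, ?_⟩
      · exact h3 (comap φ Q) ((hprime Q).2 hQ)
      · exact h4

end Pool.Agent.N608.CC
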